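import Pool.Agent.Lib_helper68.MC.Defs

/-! Project MC (MP_b08f5f_an): block HO, Hölder's inequality for mean field interactions. -/

set_option autoImplicit false

namespace Pool.Agent.Lib_helper68.MC

open MeasureTheory Filter Topology Set
open scoped ComplexConjugate ENNReal NNReal
open Pool.Agent.Lib_helper25.PV (Conf)

noncomputable section

/-- the integral of a product of functions of one variable -/
theorem HO_pi {h : ℂ → ℝ≥0∞} (hh : Measurable h) : ∀ n : ℕ,
    ∫⁻ y : Fin n → ℂ, ∏ j, h (y j) = (∫⁻ x, h x) ^ n := by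
  intro n
  induction n with
  | zero =>
    have h1 : (fun y : Fin 0 → ℂ => ∏ j, h (y j)) = fun _ => 1 := by
      funext y; simp
    rw [h1, lintegral_const, volume_pi, Measure.pi_of_empty]
    simp
  | succ n ih =>
    have h1 := (volume_preserving_piFinSuccAbove (fun _ : Fin (n + 1) => ℂ) 0).symm
    rw [← h1.lintegral_comp (by fun_prop)]
    have h2 : ∀ p : ℂ × (Fin n → ℂ),
        (∏ j, h ((MeasurableEquiv.piFinSuccAbove (fun _ : Fin (n + 1) => ℂ) 0).symm p j)) =
          h p.1 * ∏ j, h (p.2 j) := by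
      intro p
      rw [Fin.prod_univ_succ]
      simp [MeasurableEquiv.piFinSuccAbove]
    simp only [h2]
    have h4 : Measurable (fun y : Fin n → ℂ => ∏ j, h (y j)) := by fun_prop
    have h3 : AEMeasurable (fun y : Fin n → ℂ => ∏ j, h (y j)) volume := h4.aemeasurable
    rw [Measure.volume_eq_prod, lintegral_prod_mul (g := fun y : Fin n → ℂ => ∏ j, h (y j))
      hh.aemeasurable h3, ih, pow_succ, mul_comm]

/-- the integral in which the particle `i` interacts with all the others -/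
theorem HO_one {w : ℂ → ℝ≥0∞} (hw : Measurable w) {k : ℂ × ℂ → ℝ≥0∞} (hk : Measurable k)
    {M : ℝ≥0∞} (hM : ∀ x, ∫⁻ y, w y * k (x, y) ≤ M) (n : ℕ) (i : Fin (n + 1)) :
    ∫⁻ z : Fin (n + 1) → ℂ, (∏ j, w (z j)) * ∏ j ∈ Finset.univ.erase i, k (z i, z j) ≤
      (∫⁻ x, w x) * M ^ n := by
  have h1 := (volume_preserving_piFinSuccAbove (fun _ : Fin (n + 1) => ℂ) i).symm
  rw [← h1.lintegral_comp (by fun_prop)]
  have h2 : ∀ p : ℂ × (Fin n → ℂ),
      (∏ j, w ((MeasurableEquiv.piFinSuccAbove (fun _ : Fin (n + 1) => ℂ) i).symm p j)) *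
        (∏ j ∈ Finset.univ.erase i,
          k ((MeasurableEquiv.piFinSuccAbove (fun _ : Fin (n + 1) => ℂ) i).symm p i,
            (MeasurableEquiv.piFinSuccAbove (fun _ : Fin (n + 1) => ℂ) i).symm p j)) =
          w p.1 * ∏ j, (w (p.2 j) * k (p.1, p.2 j)) := by
    intro p
    have e1 : ∀ j, (MeasurableEquiv.piFinSuccAbove (fun _ : Fin (n + 1) => ℂ) i).symm p j =
        i.insertNth (α := fun _ => ℂ) p.1 p.2 j := fun j => rfl
    simp only [e1]
    rw [Fin.prod_univ_succAbove _ i]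
    have e2 : (∏ j ∈ Finset.univ.erase i,
        k (i.insertNth (α := fun _ => ℂ) p.1 p.2 i, i.insertNth (α := fun _ => ℂ) p.1 p.2 j)) =
        ∏ j : Fin n, k (p.1, p.2 j) := by
      have e3 : Finset.univ.erase i = Finset.univ.map i.succAboveEmb := by
        ext j
        simp only [Finset.mem_erase, Finset.mem_univ, and_true, Finset.mem_map, true_and]
        constructor
        · intro hj
          obtain ⟨l, hl⟩ := Fin.exists_succAbove_eq hj
          exact ⟨l, hl⟩
        · rintro ⟨l, rfl⟩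
          exact Fin.succAbove_ne i l
      rw [e3, Finset.prod_map]
      refine Finset.prod_congr rfl fun j _ => ?_
      simp
    rw [e2]
    simp only [Fin.insertNth_apply_same, Fin.insertNth_apply_succAbove, Finset.prod_mul_distrib]
    ring
  simp only [h2]
  rw [Measure.volume_eq_prod, lintegral_prod _ (by fun_prop)]
  calc ∫⁻ x, ∫⁻ y : Fin n → ℂ, w x * ∏ j, (w (y j) * k (x, y j))
      = ∫⁻ x, w x * (∫⁻ y, w y * k (x, y)) ^ n := by
        refine lintegral_congr fun x => ?_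
        have hm : Measurable fun y => w y * k (x, y) := by fun_prop
        rw [lintegral_const_mul _ (by fun_prop), HO_pi hm n]
    _ ≤ ∫⁻ x, w x * M ^ n := by
        refine lintegral_mono fun x => ?_
        gcongr
        exact hM x
    _ = (∫⁻ x, w x) * M ^ n := lintegral_mul_const _ hw

theorem HO_main (N : ℕ) (hN : 2 ≤ N) {w : ℂ → ℝ≥0∞} (hw : Measurable w) {g : ℂ → ℝ}
    (hg : Measurable g) {M : ℝ≥0∞}
    (hM : ∀ x, ∫⁻ y, w y * ENNReal.ofReal (Real.exp (g (x - y))) ≤ M) :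
    ∫⁻ z : Conf N, (∏ i, w (z i)) * ENNReal.ofReal
        (Real.exp ((∑ i, ∑ j ∈ Finset.univ.erase i, g (z i - z j)) / N)) ≤
      (∫⁻ y, w y) * M ^ (N - 1) := by
  obtain ⟨n, rfl⟩ : ∃ n, N = n + 1 := ⟨N - 1, by omega⟩
  set k : ℂ × ℂ → ℝ≥0∞ := fun p => ENNReal.ofReal (Real.exp (g (p.1 - p.2))) with hkdef
  have hk : Measurable k := by fun_prop
  have hN0 : (0 : ℝ) < ((n + 1 : ℕ) : ℝ) := by positivity
  set F : Fin (n + 1) → Conf (n + 1) → ℝ≥0∞ :=
    fun i z => (∏ j, w (z j)) * ∏ j ∈ Finset.univ.erase i, k (z i, z j) with hF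
  have hFm : ∀ i, Measurable (F i) := by
    intro i
    simp only [hF]
    fun_prop
  have key : ∀ z : Conf (n + 1), (∏ i, w (z i)) * ENNReal.ofReal
        (Real.exp ((∑ i, ∑ j ∈ Finset.univ.erase i, g (z i - z j)) / ((n + 1 : ℕ) : ℝ))) =
      ∏ i, F i z ^ (1 / ((n + 1 : ℕ) : ℝ)) := by
    intro z
    have e1 : ∀ i, F i z ^ (1 / ((n + 1 : ℕ) : ℝ)) =
        (∏ j, w (z j)) ^ (1 / ((n + 1 : ℕ) : ℝ)) *
          ENNReal.ofReal (Real.exp ((∑ j ∈ Finset.univ.erase i, g (z i - z j)) /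
            ((n + 1 : ℕ) : ℝ))) := by
      intro i
      simp only [hF]
      rw [ENNReal.mul_rpow_of_nonneg _ _ (by positivity)]
      congr 1
      rw [hkdef]
      simp only
      rw [← ENNReal.ofReal_prod_of_nonneg (fun j _ => (Real.exp_pos _).le), ← Real.exp_sum,
        ENNReal.ofReal_rpow_of_pos (Real.exp_pos _), ← Real.exp_mul, mul_one_div]
    simp only [e1]
    rw [Finset.prod_mul_distrib, Finset.prod_const, Finset.card_univ, Fintype.card_fin]
    congr 1
    · rw [← ENNReal.rpow_natCast, ← ENNReal.rpow_mul, one_div, inv_mul_cancel₀ hN0.ne',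
        ENNReal.rpow_one]
    · rw [← ENNReal.ofReal_prod_of_nonneg (fun j _ => (Real.exp_pos _).le), ← Real.exp_sum,
        Finset.sum_div]
  have hint : ∀ i, ∫⁻ z, F i z ≤ (∫⁻ y, w y) * M ^ n := fun i => HO_one hw hk hM n i
  calc ∫⁻ z : Conf (n + 1), (∏ i, w (z i)) * ENNReal.ofReal
        (Real.exp ((∑ i, ∑ j ∈ Finset.univ.erase i, g (z i - z j)) / ((n + 1 : ℕ) : ℝ)))
      = ∫⁻ z : Conf (n + 1), ∏ i, F i z ^ (1 / ((n + 1 : ℕ) : ℝ)) := by
        simp only [key]
    _ ≤ ∏ i, (∫⁻ z, F i z) ^ (1 / ((n + 1 : ℕ) : ℝ)) := by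
        refine ENNReal.lintegral_prod_norm_pow_le _ (fun i _ => (hFm i).aemeasurable) ?_
          (fun i _ => by positivity)
        rw [Finset.sum_const, Finset.card_univ, Fintype.card_fin, nsmul_eq_mul, one_div,
          mul_inv_cancel₀ hN0.ne']
    _ ≤ ∏ _i : Fin (n + 1), ((∫⁻ y, w y) * M ^ n) ^ (1 / ((n + 1 : ℕ) : ℝ)) := by
        refine Finset.prod_le_prod' fun i _ => ?_
        exact ENNReal.rpow_le_rpow (hint i) (by positivity)
    _ = (∫⁻ y, w y) * M ^ (n + 1 - 1) := by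
        rw [Finset.prod_const, Finset.card_univ, Fintype.card_fin, ← ENNReal.rpow_natCast,
          ← ENNReal.rpow_mul, one_div, inv_mul_cancel₀ hN0.ne', ENNReal.rpow_one,
          Nat.add_sub_cancel]

end

end Pool.Agent.Lib_helper68.MC
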