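import Pool.Agent.Lib_helper68.MC.DefsD

/-! Project MC (MP_b08f5f_an), block QB. -/

set_option autoImplicit false

namespace Pool.Agent.Lib_helper68.MC

open MeasureTheory Filter Topology Set
open scoped ENNReal NNReal

theorem QB_main {V D : ℝ → ℝ} (hV : StrictMonoOn V (Ioo 0 1)) (hVm : Measurable V)
    (hDm : Measurable D) (hV0 : ∀ s ∈ Ioo (0 : ℝ) 1, 0 < V s)
    (hD : ∀ᵐ s ∂(volume.restrict (Ioo (0 : ℝ) 1)), 0 < D s ∧ HasDerivAt V (D s) s)
    (hVi : IntegrableOn V (Ioo 0 1)) (hDi : IntegrableOn (fun s => Real.log (D s)) (Ioo 0 1)) :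
    ∃ g : ℝ → ℝ, Den1 g ∧ Measure.map V (volume.restrict (Ioo 0 1)) =
      volume.withDensity (fun v => ENNReal.ofReal (g v)) ∧
      S1 g = ∫ s in Ioo (0 : ℝ) 1, Real.log (D s) := by
  classical
  -- the good set
  obtain ⟨S, hSm, hSI, hSP, hSae⟩ : ∃ S : Set ℝ, MeasurableSet S ∧ S ⊆ Ioo 0 1 ∧
      (∀ s ∈ S, 0 < D s ∧ HasDerivAt V (D s) s) ∧
      volume.restrict (Ioo (0 : ℝ) 1) = volume.restrict S := by
    obtain ⟨t, ht1, htm, ht0⟩ : ∃ t : Set ℝ, {s | ¬ (0 < D s ∧ HasDerivAt V (D s) s)} ⊆ t ∧
        MeasurableSet t ∧ volume.restrict (Ioo (0 : ℝ) 1) t = 0 :=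
      exists_measurable_superset_of_null (ae_iff.1 hD)
    refine ⟨Ioo 0 1 \ t, measurableSet_Ioo.diff htm, sdiff_subset, ?_, ?_⟩
    · intro s hs
      by_contra hc
      exact hs.2 (ht1 hc)
    · refine (Measure.restrict_congr_set ?_)
      rw [Measure.restrict_apply htm] at ht0
      have : (Ioo (0 : ℝ) 1 \ t : Set ℝ) =ᵐ[volume] (Ioo (0 : ℝ) 1 : Set ℝ) := by
        refine (ae_eq_set.2 ⟨?_, ?_⟩)
        · simp
        · refine measure_mono_null ?_ ht0
          intro x hx
          have h1 := hx.1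
          have h2 := hx.2
          by_contra hc
          exact h2 ⟨h1, fun ht => hc ⟨ht, h1⟩⟩
      exact this.symm
  have hinj : InjOn V S := hV.injOn.mono hSI
  have hemb : MeasurableEmbedding (fun s : S => V s) := by
    have : StandardBorelSpace S := hSm.standardBorel
    refine Measurable.measurableEmbedding (hVm.comp measurable_subtype_coe) ?_
    intro a b hab
    exact Subtype.ext (hinj a.2 b.2 hab)
  let g : ℝ → ℝ := Function.extend (fun s : S => V s) (fun s : S => 1 / D s) (fun _ => 0)
  have hgm : Measurable g := hemb.measurable_extend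
    ((measurable_const.div (hDm.comp measurable_subtype_coe))) measurable_const
  have hgV : ∀ s ∈ S, g (V s) = 1 / D s := by
    intro s hs
    exact hemb.injective.extend_apply (fun s : S => 1 / D s) (fun _ => (0 : ℝ)) ⟨s, hs⟩
  have hg0 : ∀ v, v ∉ V '' S → g v = 0 := by
    intro v hv
    refine Function.extend_apply' _ _ _ ?_
    rintro ⟨s, hs⟩
    exact hv ⟨s, s.2, hs⟩
  have hTm : MeasurableSet (V '' S) := hSm.image_of_measurable_injOn hVm hinj
  have hgnn : ∀ v, 0 ≤ g v := by
    intro v
    by_cases hv : v ∈ V '' S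
    · obtain ⟨s, hs, rfl⟩ := hv
      rw [hgV s hs]
      exact (one_div_pos.2 (hSP s hs).1).le
    · rw [hg0 v hv]
  -- the law
  have hlaw : Measure.map V (volume.restrict (Ioo 0 1)) =
      volume.withDensity (fun v => ENNReal.ofReal (g v)) := by
    rw [hSae]
    ext E hE
    rw [Measure.map_apply hVm hE, Measure.restrict_apply (hVm hE), withDensity_apply _ hE]
    have hAm : MeasurableSet (S ∩ V ⁻¹' E) := hSm.inter (hVm hE)
    have h1 := lintegral_image_eq_lintegral_abs_deriv_mul hAm
      (fun s hs => (hSP s hs.1).2.hasDerivWithinAt) (hinj.mono inter_subset_left)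
      (fun v => ENNReal.ofReal (g v))
    have h2 : V '' (S ∩ V ⁻¹' E) = V '' S ∩ E := by
      ext v
      constructor
      · rintro ⟨s, ⟨h1, h2⟩, rfl⟩
        exact ⟨⟨s, h1, rfl⟩, h2⟩
      · rintro ⟨⟨s, h1, rfl⟩, h2⟩
        exact ⟨s, ⟨h1, h2⟩, rfl⟩
    have h3 : ∫⁻ s in S ∩ V ⁻¹' E, ENNReal.ofReal |D s| * ENNReal.ofReal (g (V s)) =
        volume (V ⁻¹' E ∩ S) := by
      rw [inter_comm (V ⁻¹' E) S, ← setLIntegral_one]
      refine setLIntegral_congr_fun hAm ?_
      intro s hs
      have hd := (hSP s hs.1).1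
      simp only
      rw [hgV s hs.1, abs_of_pos hd, ← ENNReal.ofReal_mul hd.le, mul_one_div_cancel hd.ne',
        ENNReal.ofReal_one]
    rw [← h3, ← h1, h2]
    rw [← lintegral_indicator (hTm.inter hE), ← lintegral_indicator hE]
    refine lintegral_congr fun v => ?_
    by_cases hvE : v ∈ E
    · by_cases hvT : v ∈ V '' S
      · have hm : v ∈ V '' S ∩ E := ⟨hvT, hvE⟩
        rw [indicator_of_mem hm, indicator_of_mem hvE]
      · have hm : v ∉ V '' S ∩ E := fun h => hvT h.1
        rw [indicator_of_notMem hm, indicator_of_mem hvE, hg0 v hvT,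
          ENNReal.ofReal_zero]
    · have hm : v ∉ V '' S ∩ E := fun h => hvE h.2
      rw [indicator_of_notMem hm, indicator_of_notMem hvE]
  -- transfer of integrals
  have hofm : Measurable fun v => (g v).toNNReal := hgm.real_toNNReal
  have hlaw' : Measure.map V (volume.restrict (Ioo 0 1)) =
      volume.withDensity (fun v => ((g v).toNNReal : ℝ≥0∞)) := hlaw
  have htr_i : ∀ F : ℝ → ℝ, Measurable F → (Integrable (fun v => g v * F v) ↔
      IntegrableOn (fun s => F (V s)) (Ioo 0 1)) := by
    intro F hF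
    have h1 := integrable_withDensity_iff_integrable_smul (μ := volume) hofm (g := F)
    rw [← hlaw', integrable_map_measure hF.aestronglyMeasurable hVm.aemeasurable] at h1
    rw [IntegrableOn]
    refine Iff.trans ?_ h1.symm
    refine integrable_congr (Eventually.of_forall fun v => ?_)
    simp only [NNReal.smul_def, smul_eq_mul, Real.coe_toNNReal _ (hgnn v)]
  have htr : ∀ F : ℝ → ℝ, Measurable F → ∫ v, g v * F v = ∫ s in Ioo (0 : ℝ) 1, F (V s) := by
    intro F hF
    have h1 := integral_withDensity_eq_integral_smul (μ := volume) hofm F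
    rw [← hlaw', integral_map hVm.aemeasurable hF.aestronglyMeasurable] at h1
    rw [h1]
    refine integral_congr_ae (Eventually.of_forall fun v => ?_)
    simp only [NNReal.smul_def, smul_eq_mul, Real.coe_toNNReal _ (hgnn v)]
  have hlogm : Measurable fun v => Real.log (g v) := Real.measurable_log.comp hgm
  have hlogae : ∀ᵐ s ∂(volume.restrict (Ioo (0 : ℝ) 1)),
      Real.log (g (V s)) = -Real.log (D s) := by
    rw [hSae]
    refine (ae_restrict_iff' hSm).2 (Eventually.of_forall fun s hs => ?_)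
    rw [hgV s hs, one_div, Real.log_inv]
  refine ⟨g, ?_, hlaw, ?_⟩
  · refine ⟨hgm, hgnn, ?_, ?_, ?_, ?_, ?_⟩
    · intro v hv
      refine hg0 v ?_
      rintro ⟨s, hs, rfl⟩
      exact absurd (hV0 s (hSI hs)) (not_lt.2 hv)
    · have h := (htr_i (fun _ => 1) measurable_const).2 (by
        simp [IntegrableOn])
      simpa using h
    · have h := htr (fun _ => 1) measurable_const
      simpa using h
    · refine (htr_i _ hlogm).2 ?_
      refine (hDi.neg).congr ?_
      filter_upwards [hlogae] with s hs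
      simp [hs]
    · have h := (htr_i (fun v => v) measurable_id).2 hVi
      refine h.congr (Eventually.of_forall fun v => ?_)
      simp only [mul_comm]
  · rw [S1, htr _ hlogm, ← integral_neg]
    refine integral_congr_ae ?_
    filter_upwards [hlogae] with s hs
    rw [hs, neg_neg]

end Pool.Agent.Lib_helper68.MC
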